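import Pool.Agent.R904.Voi.Defs

/-!
# Curves with actions of finite groups and surfaces dominated by quotients of products: definitions
-/

open CategoryTheory AlgebraicGeometry

universe u v w

namespace Pool.Agent.U191.VG

open Pool.Agent.H914 Pool.Agent.H914.VarClass Pool.Agent.H914.VarClass.Obj Pool.Agent.W492.BB
  Pool.Agent.W550.Corr Pool.Agent.TH133 Pool.Agent.TH829.Kim Pool.Agent.Y152.AS
  Pool.Agent.R904.Voi

variable {k : Type u} [Field k] {𝒱 : VarClass k}

/-- A family of elements `∑_g c φ g · g` of the group algebra `ℚ[G]` of the finite group `G` such that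
* `idem`: `c φ` is idempotent;
* `symm`: `c φ` is invariant under the involution `g ↦ g⁻¹`;
* `full`: the two-sided ideal generated by the `c φ` is the whole group algebra.
If all irreducible complex representations of `G` can be realized by matrices with rational
coefficients (for example if `G` is a symmetric group, a product of symmetric groups, or any other
Weyl group, or `(ℤ/2)^r`) then for the irreducible representations `φ` of `G`, with invariant scalar
product, and unit vectors `v φ` up to a rational factor, the projectors onto the lines `ℚ v φ` form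
such a family: `c φ g = (dim φ / |G|) · (g v, v) / (v, v)`. -/
structure IsFullFamily {G Φ : Type} [Group G] [Fintype G] (c : Φ → G → ℚ) : Prop where
  idem : ∀ φ g, ∑ h, c φ h * c φ (h⁻¹ * g) = c φ g
  symm : ∀ φ g, c φ g⁻¹ = c φ g
  full : ∀ f : G → ℚ, f ∈ Submodule.span ℚ {f' | ∃ φ g h, f' = fun x => c φ (g * x * h)}

/-- The self-correspondence `∑_g c g · (id × g)^* π`, `π = [Δ] - e × X - X × e`, of `X` attached to
the element `c` of the group algebra. If `X` is a curve, `e` an invariant class of degree one and
`c` idempotent, it is the projector defining the part `c h^1(X)` of the motive `h^1(X)`. -/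
noncomputable def algProj (C : TheoryData.{u, v, 0} 𝒱 ℚ) {X : 𝒱.Obj} {G : Type} [Fintype G]
    (a : G → (X ⟶ X)) (e : C.A X) (c : G → ℚ) : C.A (X.prod X) :=
  ∑ g : G, c g • C.up (prodMap (𝟙 X) (a g)) (midProj C e)

/-- `X` is a curve on which the finite group `G` acts by the automorphisms `a g`, and `γ φ` is half
of the rank of the part `c φ · h^1(X)` of `h^1(X)`, in the sense of Kimura: the symmetric power
`Sym^(2 γ(φ) + 1)` of this part is zero. (All curves have this property, by the theorem of Kimura,
if `2 γ φ` is the dimension of `c φ · H^1(X)`; this dimension is even.) Here `e` is an invariant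
class of degree one. -/
structure IsCurveWithRanks (C : TheoryData.{u, v, 0} 𝒱 ℚ) (X : 𝒱.Obj) {G Φ : Type} [Group G]
    [Fintype G] (a : G → (X ⟶ X)) (c : Φ → G → ℚ) (γ : Φ → ℕ) : Prop where
  dim_eq : X.dim = 1
  act_one : a 1 = 𝟙 X
  act_mul : ∀ g h, a (g * h) = a h ≫ a g
  kimura : ∃ e : C.A X, C.Deg 1 e ∧ HasDegree C e 1 ∧ (∀ g, C.up (a g) e = e) ∧
    ∀ (φ : Φ) (W : 𝒱.Obj) (x y : Fin (2 * γ φ + 1) → (W ⟶ X)),
      symPower C (algProj C a e (c φ)) x y = 0

/-- The surface `S` is dominated by the quotients `(X i × Y i) / G i` by the diagonal actions of the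
groups `G i`, `i` in a finite set: there are correspondences `b i ∈ CH^2((X i × Y i) × S)_ℚ` which
are invariant under the action of `G i` on `X i × Y i`, and rational numbers `r i`, such that
`∑ i, r i • (b i)_* (ᵗb i)_*` is the identity on the Albanese kernel of `S`.

For one index, for example: `b` is the graph of a rational map of degree `N` from `X × Y` to `S` which
factors through `(X × Y) / G`, and `r = 1 / N`. An example with three indices: `S` is a bidouble
cover of a surface without Albanese kernel (a rational surface), and the quotients of `S` by the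
three involutions are dominated by `(X i × Y i) / G i`. -/
def IsDominatedByQuotients (C : TheoryData.{u, v, 0} 𝒱 ℚ) {I : Type} [Fintype I] {X Y : I → 𝒱.Obj}
    {G : I → Type} (a : ∀ i, G i → (X i ⟶ X i)) (a' : ∀ i, G i → (Y i ⟶ Y i)) (S : 𝒱.Obj) : Prop :=
  S.dim = 2 ∧ ∃ (b : ∀ i, C.A (((X i).prod (Y i)).prod S)) (r : I → ℚ), (∀ i, C.Deg 2 (b i)) ∧
    (∀ i g, C.up (prodMap (prodMap (a i g) (a' i g)) (𝟙 S)) (b i) = b i) ∧
    ∀ α : C.A S, InAlbKer C α → ∑ i, r i • C.act (b i) (C.act (tp C (b i)) α) = α

end Pool.Agent.U191.VG
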