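import Pool.Agent.R904.Voi.Main
import Pool.Agent.U191.VG.Defs

/-!
# The self-correspondences attached to the elements of the group algebra
-/

open CategoryTheory AlgebraicGeometry

universe u v w

namespace Pool.Agent.U191.VG

open Pool.Agent.H914 Pool.Agent.H914.VarClass Pool.Agent.H914.VarClass.Obj Pool.Agent.W492.BB
  Pool.Agent.W550.Corr Pool.Agent.TH133 Pool.Agent.TH829.Kim Pool.Agent.Y152.AS

open Pool.Agent.R904.Voi (midProj vl pull_vl vl_univ vl_mem vl_add vl_sub vl_smul vl_sum vl_pull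
  vl_fst vl_snd vl_tp vl_comp pull_act ext_vl mid_idem mid_symm mid_mem mid_fix smul_comp1
  comp_smul1 vl_symm OddSym det_zero det_trans det_of_types permZero_double albKer_act act_tp_inv
  graph_deg symPower_eq')

variable {k : Type u} [Field k] {𝒱 : VarClass k}

variable {C : TheoryData.{u, v, 0} 𝒱 ℚ} [hC : IsChowProj C] {X Y Z W V T S : 𝒱.Obj}

include hC

lemma mid_inv' {e : C.A X} {g g' : X ⟶ X} (hg : g ≫ g' = 𝟙 X) (hg' : g' ≫ g = 𝟙 X)
    (he : C.pull g e = e) (x y : W ⟶ X) :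
    vl C (midProj C e) (x ≫ g) (y ≫ g) = vl C (midProj C e) x y := by
  have h0 : prodMap g g ≫ prodMap g' g' = 𝟙 (X.prod X) := by
    apply prod_ext
    · rw [Category.assoc, prodMap_fst, ← Category.assoc, prodMap_fst, Category.assoc, hg]
      simp
    · rw [Category.assoc, prodMap_snd, ← Category.assoc, prodMap_snd, Category.assoc, hg]
      simp
  have h0' : prodMap g' g' ≫ prodMap g g = 𝟙 (X.prod X) := by
    apply prod_ext
    · rw [Category.assoc, prodMap_fst, ← Category.assoc, prodMap_fst, Category.assoc, hg']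
      simp
    · rw [Category.assoc, prodMap_snd, ← Category.assoc, prodMap_snd, Category.assoc, hg']
      simp
  have h1 : C.pull (prodMap g g) (dg C X) = dg C X := by
    rw [pull_iso C _ _ h0 h0']
    change C.push (prodMap g' g') (C.push (Obj.lift (𝟙 X) (𝟙 X)) 1) =
      C.push (Obj.lift (𝟙 X) (𝟙 X)) 1
    have h2 : Obj.lift (𝟙 X) (𝟙 X) ≫ prodMap g' g' = g' ≫ Obj.lift (𝟙 X) (𝟙 X) := by
      apply prod_ext <;> simp [comp_lift]
    have h3 : C.push g' (1 : C.A X) = 1 := by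
      rw [← pull_iso C g g' hg hg', map_one]
    rw [← C.push_comp, h2, C.push_comp, h3]
  rw [midProj, vl_sub, vl_sub, vl_sub, vl_sub, vl_fst, vl_snd, vl_fst, vl_snd, C.pull_comp,
    C.pull_comp, he, ← vl_pull, h1]

section group

variable {G : Type} [Group G] [Fintype G] {a : G → (X ⟶ X)} {e : C.A X}

omit hC [Fintype G] in
lemma act_inv (h0 : a 1 = 𝟙 X) (h1 : ∀ g h, a (g * h) = a h ≫ a g) (g : G) :
    a g ≫ a g⁻¹ = 𝟙 X := by rw [← h1, inv_mul_cancel, h0]

omit hC [Fintype G] in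
lemma inv_act (h0 : a 1 = 𝟙 X) (h1 : ∀ g h, a (g * h) = a h ≫ a g) (g : G) :
    a g⁻¹ ≫ a g = 𝟙 X := by rw [← h1, mul_inv_cancel, h0]

/-- The correspondences attached to the elements of the group. -/
noncomputable def gP (a : G → (X ⟶ X)) (e : C.A X) (g : G) : C.A (X.prod X) :=
  C.pull (prodMap (𝟙 X) (a g)) (midProj C e)

omit [Group G] [Fintype G] in
lemma vl_gP (g : G) (x y : W ⟶ X) :
    vl C (gP a e g) x y = vl C (midProj C e) x (y ≫ a g) := by
  rw [gP, vl_pull, Category.comp_id]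

omit [Fintype G] in
lemma vl_gP' (h0 : a 1 = 𝟙 X) (h1 : ∀ g h, a (g * h) = a h ≫ a g)
    (he : ∀ g, C.pull (a g) e = e) (g : G) (x y : W ⟶ X) :
    vl C (gP a e g) x y = vl C (midProj C e) (x ≫ a g⁻¹) y := by
  have h2 := mid_inv' (inv_act h0 h1 g) (act_inv h0 h1 g) (he g⁻¹) x (y ≫ a g)
  rw [vl_gP, ← h2, Category.assoc, act_inv h0 h1 g, Category.comp_id]

omit [Fintype G] in
lemma gP_comp (hd : X.dim = 1) (hed : C.Deg 1 e) (he1 : HasDegree C e 1) (h0 : a 1 = 𝟙 X)
    (h1 : ∀ g h, a (g * h) = a h ≫ a g) (he : ∀ g, C.pull (a g) e = e) (g h : G) :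
    C.comp (gP a e g) (gP a e h) = gP a e (g * h) := by
  apply ext_vl
  intro W x y
  rw [vl_comp, vl_gP' h0 h1 he, vl_gP, Category.assoc, Category.assoc, ← vl_comp,
    mid_idem hd hed he1, ← vl_gP' h0 h1 he, vl_gP, vl_gP, Category.assoc, ← h1]

omit [Fintype G] in
lemma gP_symm (h0 : a 1 = 𝟙 X) (h1 : ∀ g h, a (g * h) = a h ≫ a g)
    (he : ∀ g, C.pull (a g) e = e) (g : G) : tp C (gP a e g) = gP a e g⁻¹ := by
  apply ext_vl
  intro W x y
  rw [vl_tp, vl_gP, vl_symm (mid_symm e), vl_gP' h0 h1 he, inv_inv]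

omit [Fintype G] in
lemma gP_one (h0 : a 1 = 𝟙 X) : gP a e 1 = midProj C e := by
  have h2 : prodMap (𝟙 X) (𝟙 X) = 𝟙 (X.prod X) := by
    apply prod_ext <;> simp
  rw [gP, h0, h2, C.pull_id]

omit [Group G] in
lemma algProj_eq (c : G → ℚ) : algProj C a e c = ∑ g : G, c g • gP a e g := rfl

lemma algProj_comp (hd : X.dim = 1) (hed : C.Deg 1 e) (he1 : HasDegree C e 1) (h0 : a 1 = 𝟙 X)
    (h1 : ∀ g h, a (g * h) = a h ≫ a g) (he : ∀ g, C.pull (a g) e = e) (c d : G → ℚ) :
    C.comp (algProj C a e c) (algProj C a e d) =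
      algProj C a e (fun g => ∑ h, c h * d (h⁻¹ * g)) := by
  rw [algProj_eq, algProj_eq, algProj_eq, sum_comp]
  have h3 : ∀ g : G, C.comp (c g • gP a e g) (∑ h : G, d h • gP a e h) =
      ∑ x : G, (c g * d (g⁻¹ * x)) • gP a e x := by
    intro g
    rw [comp_sum, ← Equiv.sum_comp (Equiv.mulLeft g) (fun x => (c g * d (g⁻¹ * x)) • gP a e x)]
    refine Finset.sum_congr rfl fun h _ => ?_
    rw [smul_comp1, comp_smul1, gP_comp hd hed he1 h0 h1 he, smul_smul, Equiv.coe_mulLeft,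
      inv_mul_cancel_left]
  rw [Finset.sum_congr rfl fun g _ => h3 g, Finset.sum_comm]
  refine Finset.sum_congr rfl fun x _ => ?_
  rw [Finset.sum_smul]

lemma algProj_symm (h0 : a 1 = 𝟙 X) (h1 : ∀ g h, a (g * h) = a h ≫ a g)
    (he : ∀ g, C.pull (a g) e = e) {c : G → ℚ} (hc : ∀ g, c g⁻¹ = c g) :
    tp C (algProj C a e c) = algProj C a e c := by
  rw [algProj_eq, tp, map_sum, ← Equiv.sum_comp (Equiv.inv G) (fun g => c g • gP a e g)]
  refine Finset.sum_congr rfl fun g _ => ?_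
  rw [map_smul, Equiv.inv_apply, hc]
  congr 1
  exact gP_symm h0 h1 he g

omit [Group G] in
lemma algProj_mem (hd : X.dim = 1) (hed : C.Deg 1 e) (c : G → ℚ) :
    algProj C a e c ∈ C.gr (X.prod X) X.dim :=
  Submodule.sum_mem _ fun _ _ => Submodule.smul_mem _ _ (C.pull_mem _ (mid_mem hd hed))

lemma algProj_one [DecidableEq G] (h0 : a 1 = 𝟙 X) :
    algProj C a e (Pi.single 1 1) = midProj C e := by
  rw [algProj_eq, Finset.sum_eq_single 1]
  · rw [Pi.single_eq_same, one_smul, gP_one h0]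
  · intro g _ hg
    rw [Pi.single_eq_of_ne hg, zero_smul]
  · intro h
    exact absurd (Finset.mem_univ _) h

/-- Translates. -/
lemma algProj_trans (hd : X.dim = 1) (hed : C.Deg 1 e) (he1 : HasDegree C e 1) (h0 : a 1 = 𝟙 X)
    (h1 : ∀ g h, a (g * h) = a h ≫ a g) (he : ∀ g, C.pull (a g) e = e) (c : G → ℚ) (g h : G) :
    algProj C a e (fun x => c (g * x * h)) =
      C.comp (gP a e g⁻¹) (C.comp (algProj C a e c) (gP a e h⁻¹)) := by
  rw [algProj_eq, algProj_eq, sum_comp, comp_sum,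
    ← Equiv.sum_comp ((Equiv.mulLeft g).trans (Equiv.mulRight h))
      (fun y => C.comp (gP a e g⁻¹) (C.comp (c y • gP a e y) (gP a e h⁻¹)))]
  refine Finset.sum_congr rfl fun x _ => ?_
  rw [Equiv.trans_apply, Equiv.coe_mulLeft, Equiv.coe_mulRight, smul_comp1, comp_smul1,
    gP_comp hd hed he1 h0 h1 he, gP_comp hd hed he1 h0 h1 he]
  congr 2
  group

end group

section both

variable {G : Type} [Group G] [Fintype G] {a : G → (X ⟶ X)} {e : C.A X} {a' : G → (Y ⟶ Y)}
  {e' : C.A Y}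

omit [Fintype G] in
/-- The equality of the actions from both sides on invariant classes. -/
lemma gP_both (h0 : a 1 = 𝟙 X) (h1 : ∀ g h, a (g * h) = a h ≫ a g)
    (he : ∀ g, C.pull (a g) e = e)
    {β : C.A (X.prod Y)} (hfix : C.comp (midProj C e) β = β)
    (hfix' : C.comp β (midProj C e') = β)
    (hinv : ∀ g, C.pull (prodMap (a g) (a' g)) β = β) (g : G) :
    C.comp (gP a e g) β = C.comp β (gP a' e' g) := by
  apply ext_vl
  intro W x y
  rw [vl_comp, vl_comp]
  have h3 : vl C (gP a e g) (fst W X ≫ x) (snd W X) =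
      vl C (midProj C e) (fst W X ≫ x ≫ a g⁻¹) (snd W X) := by
    rw [vl_gP' h0 h1 he, Category.assoc]
  have h4 : vl C (gP a' e' g) (snd W Y) (fst W Y ≫ y) =
      vl C (midProj C e') (snd W Y) (fst W Y ≫ y ≫ a' g) := by
    rw [vl_gP, Category.assoc]
  rw [h3, h4, ← vl_comp, ← vl_comp, hfix, hfix']
  conv_lhs => rw [← hinv g, vl_pull, Category.assoc, inv_act h0 h1, Category.comp_id]

lemma algProj_both (h0 : a 1 = 𝟙 X) (h1 : ∀ g h, a (g * h) = a h ≫ a g)
    (he : ∀ g, C.pull (a g) e = e)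
    {β : C.A (X.prod Y)} (hfix : C.comp (midProj C e) β = β)
    (hfix' : C.comp β (midProj C e') = β)
    (hinv : ∀ g, C.pull (prodMap (a g) (a' g)) β = β) (c : G → ℚ) :
    C.comp (algProj C a e c) β = C.comp β (algProj C a' e' c) := by
  rw [algProj_eq, algProj_eq, sum_comp, comp_sum]
  refine Finset.sum_congr rfl fun g _ => ?_
  rw [smul_comp1, comp_smul1, gP_both h0 h1 he hfix hfix' hinv]

omit [Fintype G] in
/-- The action of two elements of the group from both sides. -/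
lemma gP_sides (h0 : a 1 = 𝟙 X) (h1 : ∀ g h, a (g * h) = a h ≫ a g)
    (he : ∀ g, C.pull (a g) e = e) (h0' : a' 1 = 𝟙 Y) (h1' : ∀ g h, a' (g * h) = a' h ≫ a' g)
    {γ : C.A (X.prod Y)} (hfix : C.comp (midProj C e) γ = γ)
    (hfix' : C.comp γ (midProj C e') = γ) (g h : G) :
    C.comp (gP a e g) (C.comp γ (gP a' e' h)) =
      C.act (C.graph (prodMap (a g) (a' h⁻¹))) γ := by
  have h2 : prodMap (a g⁻¹) (a' h) ≫ prodMap (a g) (a' h⁻¹) = 𝟙 (X.prod Y) := by
    apply prod_ext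
    · rw [Category.assoc, prodMap_fst, ← Category.assoc, prodMap_fst, Category.assoc,
        inv_act h0 h1]
      simp
    · rw [Category.assoc, prodMap_snd, ← Category.assoc, prodMap_snd, Category.assoc,
        act_inv h0' h1']
      simp
  have h3 : prodMap (a g) (a' h⁻¹) ≫ prodMap (a g⁻¹) (a' h) = 𝟙 (X.prod Y) := by
    apply prod_ext
    · rw [Category.assoc, prodMap_fst, ← Category.assoc, prodMap_fst, Category.assoc,
        act_inv h0 h1]
      simp
    · rw [Category.assoc, prodMap_snd, ← Category.assoc, prodMap_snd, Category.assoc,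
        inv_act h0' h1']
      simp
  rw [C.act_graph, ← pull_iso C _ _ h2 h3]
  apply ext_vl
  intro W x y
  have e1 : ∀ (V : 𝒱.Obj) (x : V ⟶ X) (y : V ⟶ Y),
      vl C (C.comp γ (gP a' e' h)) x y = vl C γ x (y ≫ a' h) := by
    intro V x y
    rw [vl_comp]
    have h4 : vl C (gP a' e' h) (snd V Y) (fst V Y ≫ y) =
        vl C (midProj C e') (snd V Y) (fst V Y ≫ y ≫ a' h) := by
      rw [vl_gP, Category.assoc]
    rw [h4, ← vl_comp, hfix']
  rw [vl_comp, vl_pull]
  have h5 : vl C (gP a e g) (fst W X ≫ x) (snd W X) =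
      vl C (midProj C e) (fst W X ≫ x ≫ a g⁻¹) (snd W X) := by
    rw [vl_gP' h0 h1 he, Category.assoc]
  rw [h5, e1, Category.assoc, ← vl_comp, hfix]

/-- **The decomposition of invariant classes.** -/
theorem exists_dec [DecidableEq G] {Φ : Type} [Fintype Φ] [DecidableEq Φ] {c : Φ → G → ℚ}
    (hc : IsFullFamily c) (hd : X.dim = 1) (hed : C.Deg 1 e) (he1 : HasDegree C e 1)
    (h0 : a 1 = 𝟙 X)
    (h1 : ∀ g h, a (g * h) = a h ≫ a g) (he : ∀ g, C.pull (a g) e = e) (h0' : a' 1 = 𝟙 Y)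
    (h1' : ∀ g h, a' (g * h) = a' h ≫ a' g) :
    ∃ Ψ : Φ → C.A ((X.prod Y).prod (X.prod Y)), ∀ β : C.A (X.prod Y),
      C.comp (midProj C e) β = β → C.comp β (midProj C e') = β →
      (∀ g, C.pull (prodMap (a g) (a' g)) β = β) →
      β = ∑ φ, C.act (Ψ φ) (C.comp (algProj C a e (c φ)) β) := by
  have key : ∀ f : G → ℚ, ∃ Ψ : Φ → C.A ((X.prod Y).prod (X.prod Y)), ∀ β : C.A (X.prod Y),
      C.comp (midProj C e) β = β → C.comp β (midProj C e') = β →
      (∀ g, C.pull (prodMap (a g) (a' g)) β = β) →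
      C.comp (algProj C a e f) β = ∑ φ, C.act (Ψ φ) (C.comp (algProj C a e (c φ)) β) := by
    intro f
    have hf := hc.full f
    induction hf using Submodule.span_induction with
    | mem f hf =>
      obtain ⟨φ, g, h, rfl⟩ := hf
      refine ⟨Pi.single φ (C.graph (prodMap (a g⁻¹) (a' h⁻¹⁻¹))), fun β hfix hfix' hinv => ?_⟩
      rw [Finset.sum_eq_single φ]
      · rw [Pi.single_eq_same, algProj_trans hd hed he1 h0 h1 he, comp_assoc, comp_assoc,
          gP_both h0 h1 he hfix hfix' hinv, ← comp_assoc C (algProj C a e (c φ))]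
        refine gP_sides h0 h1 he h0' h1' ?_ ?_ g⁻¹ h⁻¹
        · rw [← comp_assoc, ← gP_one (a := a) h0, algProj_eq, comp_sum]
          congr 1
          refine Finset.sum_congr rfl fun x _ => ?_
          rw [comp_smul1, gP_comp hd hed he1 h0 h1 he, one_mul]
        · rw [comp_assoc, hfix']
      · intro ψ _ hψ
        rw [Pi.single_eq_of_ne hψ, ← actB_apply, map_zero, LinearMap.zero_apply]
      · intro h
        exact absurd (Finset.mem_univ _) h
    | zero =>
      refine ⟨0, fun β _ _ _ => ?_⟩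
      have e1 : algProj C a e (0 : G → ℚ) = 0 := by
        rw [algProj_eq]
        simp
      rw [e1, zero_comp]
      symm
      refine Finset.sum_eq_zero fun φ _ => ?_
      rw [Pi.zero_apply, ← actB_apply, map_zero, LinearMap.zero_apply]
    | add f f' _ _ hf hf' =>
      obtain ⟨Ψ, hΨ⟩ := hf
      obtain ⟨Ψ', hΨ'⟩ := hf'
      refine ⟨Ψ + Ψ', fun β hfix hfix' hinv => ?_⟩
      have e1 : algProj C a e (f + f') = algProj C a e f + algProj C a e f' := by
        simp only [algProj_eq, Pi.add_apply, add_smul, Finset.sum_add_distrib]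
      rw [e1, add_comp, hΨ β hfix hfix' hinv, hΨ' β hfix hfix' hinv, ← Finset.sum_add_distrib]
      refine Finset.sum_congr rfl fun φ _ => ?_
      rw [Pi.add_apply, C.act_add]
    | smul r f _ hf =>
      obtain ⟨Ψ, hΨ⟩ := hf
      refine ⟨r • Ψ, fun β hfix hfix' hinv => ?_⟩
      have e1 : algProj C a e (r • f) = r • algProj C a e f := by
        simp only [algProj_eq, Pi.smul_apply, smul_eq_mul, mul_smul, Finset.smul_sum]
      rw [e1, smul_comp1, hΨ β hfix hfix' hinv, Finset.smul_sum]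
      refine Finset.sum_congr rfl fun φ _ => ?_
      rw [Pi.smul_apply, ← actB_apply, ← actB_apply, map_smul, LinearMap.smul_apply]
  obtain ⟨Ψ, hΨ⟩ := key (Pi.single 1 1)
  refine ⟨Ψ, fun β hfix hfix' hinv => ?_⟩
  rw [← hΨ β hfix hfix' hinv, algProj_one h0, hfix]

end both

end Pool.Agent.U191.VG
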