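import Pool.Agent.U191.VG.Act

/-!
# The alternating sums of products of zero-cycles, for general finite groups
-/

open CategoryTheory AlgebraicGeometry

universe u v w

namespace Pool.Agent.U191.VG

open Pool.Agent.H914 Pool.Agent.H914.VarClass Pool.Agent.H914.VarClass.Obj Pool.Agent.W492.BB
  Pool.Agent.W550.Corr Pool.Agent.TH133 Pool.Agent.TH829.Kim Pool.Agent.Y152.AS

open Pool.Agent.R904.Voi (midProj vl pull_vl vl_univ vl_mem vl_add vl_sub vl_smul vl_sum vl_pull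
  vl_fst vl_snd vl_tp vl_comp pull_act ext_vl mid_idem mid_symm mid_mem mid_fix smul_comp1
  comp_smul1 vl_symm OddSym det_zero det_trans det_of_types permZero_double albKer_act act_tp_inv
  graph_deg symPower_eq')

variable {k : Type u} [Field k] {𝒱 : VarClass k}

variable {C : TheoryData.{u, v, 0} 𝒱 ℚ} [hC : IsChowProj C] {X Y Z W V T S : 𝒱.Obj}

include hC

/-- **The theorem in terms of motives.** Zero-cycles on `S` which are combinations of images of
zero-cycles on the products `(X φ, p φ) × (Y φ, q φ)` of symmetric odd motives. -/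
theorem det_motives {Φ : Type} [Fintype Φ] [DecidableEq Φ] {X Y : Φ → 𝒱.Obj} {γ γ' : Φ → ℕ}
    {n : ℕ} (hn : ∑ φ, γ φ * γ' φ < n) {p : ∀ φ, C.A ((X φ).prod (X φ))}
    (hp : ∀ φ, OddSym (p φ) (γ φ)) {q : ∀ φ, C.A ((Y φ).prod (Y φ))}
    (hq : ∀ φ, OddSym (q φ) (γ' φ)) (b : ∀ φ, C.A (((X φ).prod (Y φ)).prod S))
    (α : Fin n → C.A S) (β : ∀ φ, Fin n → C.A ((X φ).prod (Y φ)))
    (hβ : ∀ φ j, β φ j ∈ C.gr ((X φ).prod (Y φ)) (((X φ).dim : ℤ) + (Y φ).dim))
    (hfix : ∀ φ j, C.comp (p φ) (β φ j) = β φ j) (hfix' : ∀ φ j, C.comp (β φ j) (q φ) = β φ j)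
    (hα : ∀ j, α j = ∑ φ, C.act (b φ) (β φ j)) (s : Fin n → (W ⟶ S)) :
    (Matrix.of fun i j => C.pull (s i) (α j)).det = 0 := by
  classical
  have h1 : (Matrix.of fun i j => C.pull (s i) (α j)) = Matrix.of fun i j =>
      ∑ φ, (Matrix.of fun i j => C.pull (s i) (C.act (b φ) (β φ j)) :
        Matrix (Fin n) (Fin n) (C.A W)) i j := by
    funext i j
    simp only [Matrix.of_apply]
    rw [hα, map_sum]
  rw [h1]
  refine det_of_types (fun φ => γ φ * γ' φ) hn (fun φ => Matrix.of fun i j =>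
    C.pull (s i) (C.act (b φ) (β φ j))) fun φ J hJ r => ?_
  let e : J ≃ Fin J.card := J.equivFin
  rw [← Matrix.det_reindex_self e]
  refine det_trans (b φ) (fun j : Fin J.card => β φ (e.symm j)) (fun V t => ?_)
    (fun i => s (r (e.symm i)))
  have h3 := det_zero (W := V) hJ (hp φ) (hq φ) (α := fun j : Fin J.card => β φ (e.symm j))
    (fun j => hβ φ _) (fun j => hfix φ _) (fun j => hfix' φ _)
    (fun i => t i ≫ fst (X φ) (Y φ)) (fun i => t i ≫ snd (X φ) (Y φ))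
  rw [← h3]
  congr 1
  funext i j
  have h2 : Obj.lift (t i ≫ fst (X φ) (Y φ)) (t i ≫ snd (X φ) (Y φ)) = t i := by
    apply prod_ext <;> simp
  rw [Matrix.of_apply, Matrix.of_apply, vl, h2]

/-- The classes on the product of two curves, and their decomposition. -/
theorem exists_types {G Φ : Type} [Group G] [Fintype G] [Fintype Φ] {c : Φ → G → ℚ}
    (hc : IsFullFamily c) {a : G → (X ⟶ X)} {a' : G → (Y ⟶ Y)} {γ γ' : Φ → ℕ}
    (hX : IsCurveWithRanks C X a c γ) (hY : IsCurveWithRanks C Y a' c γ') (hSd : S.dim = 2)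
    {b : C.A ((X.prod Y).prod S)} (hb : C.Deg 2 b)
    (hbi : ∀ g, C.up (prodMap (prodMap (a g) (a' g)) (𝟙 S)) b = b) :
    ∃ (p : Φ → C.A (X.prod X)) (q : Φ → C.A (Y.prod Y)) (Ψ : Φ → C.A ((X.prod Y).prod (X.prod Y))),
      (∀ φ, OddSym (p φ) (γ φ)) ∧ (∀ φ, OddSym (q φ) (γ' φ)) ∧
      ∀ α : C.A S, InAlbKer C α → ∃ β : Φ → C.A (X.prod Y),
        (∀ φ, β φ ∈ C.gr (X.prod Y) ((X.dim : ℤ) + Y.dim)) ∧ (∀ φ, C.comp (p φ) (β φ) = β φ) ∧
        (∀ φ, C.comp (β φ) (q φ) = β φ) ∧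
        C.act (tp C b) α = ∑ φ, C.act (Ψ φ) (β φ) := by
  classical
  obtain ⟨hd, h0, h1, e, he, he1, hinv, hk⟩ := hX
  obtain ⟨hd', h0', h1', e', he', he1', hinv', hk'⟩ := hY
  have hdXY : (X.prod Y).dim = 2 := by rw [dim_prod, hd, hd']
  have hp : ∀ φ, OddSym (algProj C a e (c φ)) (γ φ) := fun φ =>
    ⟨by rw [algProj_comp hd he he1 h0 h1 hinv]; congr 1; funext g; exact hc.idem φ g,
      algProj_symm h0 h1 hinv (hc.symm φ), algProj_mem hd he _,
      by omega, permZero_double fun W x y => by rw [← symPower_eq']; exact hk φ W x y⟩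
  have hq : ∀ φ, OddSym (algProj C a' e' (c φ)) (γ' φ) := fun φ =>
    ⟨by rw [algProj_comp hd' he' he1' h0' h1' hinv']; congr 1; funext g; exact hc.idem φ g,
      algProj_symm h0' h1' hinv' (hc.symm φ), algProj_mem hd' he' _,
      by omega, permZero_double fun W x y => by rw [← symPower_eq']; exact hk' φ W x y⟩
  obtain ⟨Ψ, hΨ⟩ := exists_dec (C := C) (X := X) (Y := Y) (e' := e') hc hd he he1 h0 h1 hinv h0' h1'
  refine ⟨fun φ => algProj C a e (c φ), fun φ => algProj C a' e' (c φ), Ψ, hp, hq, fun α hα => ?_⟩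
  -- the classes on the product
  let β : C.A (X.prod Y) := C.act (tp C b) α
  have hβK : InAlbKer C β := by
    refine albKer_act ?_ (by rw [hSd, hdXY]) hα
    rw [hSd]
    exact tp_mem C hb
  have hβd : C.Deg 2 β := by
    have := hβK.deg
    rw [hdXY] at this
    exact this
  have hsnd : C.push (snd X Y) β = 0 := by
    rw [← C.act_graph]
    refine hβK.act_eq_zero Y _ ?_
    have := graph_deg (C := C) (snd X Y)
    rwa [hd'] at this
  have hfst : C.push (fst X Y) β = 0 := by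
    rw [← C.act_graph]
    refine hβK.act_eq_zero X _ ?_
    have := graph_deg (C := C) (fst X Y)
    rwa [hd] at this
  have hfix : C.comp (midProj C e) β = β := mid_fix hd hd' he hβd hsnd
  have hfix' : C.comp β (midProj C e') = β := by
    have h2 : C.push (snd Y X) (tp C β) = 0 := by
      rw [tp, pull_iso C (sw Y X) (sw X Y) sw_sw sw_sw, ← C.push_comp]
      have : sw X Y ≫ snd Y X = fst X Y := by simp [sw]
      rw [this, hfst]
    have h3 := mid_fix hd' hd he' (tp_mem C hβd) h2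
    have h4 := congrArg (tp C) h3
    rwa [tp_comp C (ch_comm C), tp_tp, mid_symm] at h4
  have hβi : ∀ g, C.pull (prodMap (a g) (a' g)) β = β := fun g => act_tp_inv (hbi g) α
  have hβg : β ∈ C.gr (X.prod Y) ((X.dim : ℤ) + Y.dim) := by
    have := hβd
    have e2 : (X.dim : ℤ) + Y.dim = 2 := by rw [hd, hd']; norm_num
    rw [e2]
    exact this
  refine ⟨fun φ => C.comp (algProj C a e (c φ)) β, fun φ => ?_, fun φ => ?_, fun φ => ?_,
    hΨ β hfix hfix' hβi⟩
  · have h4 := comp_mem C (e := 0) (e' := Y.dim) (Γ := algProj C a e (c φ)) (Δ := β)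
      (by rw [add_zero]; exact (hp φ).deg) hβg
    rwa [zero_add] at h4
  · rw [← comp_assoc, (hp φ).idem]
  · have hb2 := algProj_both (C := C) h0 h1 hinv hfix hfix' hβi (c φ)
    rw [comp_assoc, ← hb2, ← comp_assoc, (hp φ).idem]

/-- **The main theorem.** -/
theorem main {I : Type} [Fintype I] {G Φ : I → Type} [∀ i, Group (G i)] [∀ i, Fintype (G i)]
    [∀ i, Fintype (Φ i)] {c : ∀ i, Φ i → G i → ℚ} (hc : ∀ i, IsFullFamily (c i))
    {X Y : I → 𝒱.Obj} {a : ∀ i, G i → (X i ⟶ X i)} {a' : ∀ i, G i → (Y i ⟶ Y i)}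
    {γ γ' : ∀ i, Φ i → ℕ} (hX : ∀ i, IsCurveWithRanks C (X i) (a i) (c i) (γ i))
    (hY : ∀ i, IsCurveWithRanks C (Y i) (a' i) (c i) (γ' i))
    (hS : IsDominatedByQuotients C a a' S) {n : ℕ} (hn : ∑ i, ∑ φ, γ i φ * γ' i φ < n)
    (α : Fin n → C.A S) (hα : ∀ i, InAlbKer C (α i)) (s : Fin n → (W ⟶ S)) :
    (Matrix.of fun i j => C.pull (s i) (α j)).det = 0 := by
  classical
  obtain ⟨hSd, b, r, hb, hbi, hdom⟩ := hS
  choose p q Ψ hp hq hdec using fun i => exists_types (C := C) (hc i) (hX i) (hY i) hSd (hb i) (hbi i)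
  choose β hβg hβ hβ' hβs using fun i (j : Fin n) => hdec i (α j) (hα j)
  refine det_motives (C := C) (S := S) (Φ := Σ i, Φ i) (X := fun φ => X φ.1) (Y := fun φ => Y φ.1)
    (γ := fun φ => γ φ.1 φ.2) (γ' := fun φ => γ' φ.1 φ.2) (by rwa [Fintype.sum_sigma])
    (fun φ => hp φ.1 φ.2) (fun φ => hq φ.1 φ.2)
    (fun φ => r φ.1 • C.comp (Ψ φ.1 φ.2) (b φ.1)) α (fun φ j => β φ.1 j φ.2)
    (fun φ j => hβg φ.1 j φ.2) (fun φ j => hβ φ.1 j φ.2) (fun φ j => hβ' φ.1 j φ.2)
    (fun j => ?_) s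
  rw [← hdom _ (hα j), Fintype.sum_sigma]
  refine Finset.sum_congr rfl fun i _ => ?_
  rw [hβs i j, act_map_sum, Finset.smul_sum]
  refine Finset.sum_congr rfl fun φ _ => ?_
  rw [← actB_apply C (r i • _), map_smul, LinearMap.smul_apply, actB_apply, C.act_comp]

end Pool.Agent.U191.VG
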